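import Mathlib

/-!
# Toric ideals of matching polytopes: degree five is needed

The graph is the Petersen graph with one further edge.  It has eight perfect matchings
`Q₀, …, Q₇`, and `2 Q₀ + Q₄ + Q₅ + Q₆ = 2 Q₃ + Q₁ + Q₂ + Q₇` as edge multisets, while this
multiset of edges has no third decomposition into five matchings.  So the binomial of degree five
given by these two decompositions is not in the ideal generated by the elements of degree at most
four of the toric ideal.
-/

set_option autoImplicit false

namespace Pool.Agent.Results.MP_2a9801_co.DegreeFive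

open MvPolynomial Finset

universe u

/-- A set `M` of edges of `G` is a matching if no two distinct edges in `M` have a common end. -/
def IsMatching {V : Type} (G : SimpleGraph V) (M : Finset G.edgeSet) : Prop :=
  ∀ e ∈ M, ∀ f ∈ M, e ≠ f → ∀ v : V, ¬ (v ∈ e.1 ∧ v ∈ f.1)

/-- The matchings of `G` (the empty one included). -/
abbrev Matchings {V : Type} (G : SimpleGraph V) : Type :=
  {M : Finset G.edgeSet // IsMatching G M}

/-- The homomorphism `x_M ↦ s ∏_{e ∈ M} t_e`; the variable `s` is `X none`, the variable `t_e`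
is `X (some e)`. -/
noncomputable def toricMap {V : Type} (G : SimpleGraph V) (K : Type u) [Field K] :
    MvPolynomial (Matchings G) K →ₐ[K] MvPolynomial (Option G.edgeSet) K :=
  aeval fun M => X none * ∏ e ∈ M.1, X (some e)

/-- The toric ideal of the matching polytope of `G`. -/
noncomputable def toricIdeal {V : Type} (G : SimpleGraph V) (K : Type u) [Field K] :
    Ideal (MvPolynomial (Matchings G) K) :=
  RingHom.ker (toricMap G K)

/-- The edges of the Petersen graph, and the further edge `{8, 9}`. -/
def ends : Fin 16 → Sym2 (Fin 10) :=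
  ![s(0, 1), s(0, 3), s(0, 4), s(1, 6), s(1, 8), s(2, 3), s(2, 8), s(2, 9), s(3, 7), s(4, 5),
    s(4, 9), s(5, 7), s(5, 8), s(6, 7), s(6, 9), s(8, 9)]

/-- The Petersen graph with one further edge. -/
def petersenPlusEdge : SimpleGraph (Fin 10) := SimpleGraph.fromEdgeSet (Set.range ends)

/-! ### Exponents -/

section General

variable {V : Type} (G : SimpleGraph V) (K : Type u) [Field K]

/-- exponent of the image of `x_M` -/
noncomputable def expo (M : Matchings G) : Option G.edgeSet →₀ ℕ :=
  Finsupp.single none 1 + ∑ e ∈ M.1, Finsupp.single (some e) 1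

/-- exponent of the image of a monomial -/
noncomputable def phi (w : Matchings G →₀ ℕ) : Option G.edgeSet →₀ ℕ :=
  w.sum fun M k => k • expo G M

lemma phi_add (w w' : Matchings G →₀ ℕ) : phi G (w + w') = phi G w + phi G w' := by
  unfold phi
  rw [Finsupp.sum_add_index']
  · intro M; simp
  · intro M a b; rw [add_smul]

lemma map_X (M : Matchings G) :
    toricMap G K (X M) = monomial (expo G M) 1 := by
  unfold toricMap expo
  rw [aeval_X]
  have h : ∀ s : Finset G.edgeSet, (∏ e ∈ s, (X (some e) : MvPolynomial (Option G.edgeSet) K)) =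
      monomial (∑ e ∈ s, Finsupp.single (some e) 1) 1 := by
    classical
    intro s
    induction s using Finset.induction_on with
    | empty => simp
    | insert a s ha ih =>
      rw [Finset.prod_insert ha, Finset.sum_insert ha, ih, X, monomial_mul, one_mul]
  rw [h, X, monomial_mul, one_mul]

lemma map_monomial (w : Matchings G →₀ ℕ) (c : K) :
    toricMap G K (monomial w c) = monomial (phi G w) c := by
  classical
  rw [monomial_eq, map_mul]
  have h1 : toricMap G K (C c) = C c := by
    unfold toricMap
    rw [aeval_C]; rfl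
  rw [h1, Finsupp.prod, map_prod]
  have h2 : ∀ s : Finset (Matchings G), (∏ M ∈ s, toricMap G K (X M ^ w M)) =
      monomial (∑ M ∈ s, w M • expo G M) 1 := by
    intro s
    induction s using Finset.induction_on with
    | empty => simp
    | insert a s ha ih =>
      rw [Finset.prod_insert ha, Finset.sum_insert ha, ih, map_pow, map_X, monomial_pow,
        monomial_mul, one_pow, one_mul]
  rw [h2, C_mul_monomial, mul_one]
  rfl

/-- an element of the toric ideal has coefficient zero at an exponent which is alone in its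
fibre -/
lemma coeff_eq_zero {f : MvPolynomial (Matchings G) K} (hf : f ∈ toricIdeal G K)
    (w : Matchings G →₀ ℕ) (hw : ∀ w', phi G w' = phi G w → w' = w) : f.coeff w = 0 := by
  classical
  have h0 : toricMap G K f = 0 := hf
  have h1 : toricMap G K f = ∑ w' ∈ f.support, monomial (phi G w') (f.coeff w') := by
    conv_lhs => rw [f.as_sum]
    rw [map_sum]
    exact Finset.sum_congr rfl fun w' _ => map_monomial G K w' _
  have h2 : coeff (phi G w) (toricMap G K f) = f.coeff w := by
    rw [h1, coeff_sum]
    rw [Finset.sum_eq_single w]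
    · rw [coeff_monomial, if_pos rfl]
    · intro w' _ hne
      rw [coeff_monomial, if_neg]
      intro h
      exact hne (hw w' h)
    · intro hns
      rw [coeff_monomial, if_pos rfl]
      exact notMem_support_iff.mp hns
  rw [← h2, h0, coeff_zero]

/-- the general argument -/
lemma key (u v : Matchings G →₀ ℕ) (hdeg : u.sum (fun _ k => k) = 5)
    (huv : phi G u = phi G v) (hfib : ∀ w, phi G w = phi G u → w = u ∨ w = v)
    (hdis : ∀ M, u M = 0 ∨ v M = 0) (S : Set (MvPolynomial (Matchings G) K))
    (hS : Ideal.span S = toricIdeal G K) : ∃ f ∈ S, 5 ≤ f.totalDegree := by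
  classical
  by_contra hcon
  push Not at hcon
  have hne : u ≠ v := by
    intro h
    have : u = 0 := by
      ext M
      rcases hdis M with h1 | h1
      · simpa using h1
      · rw [h]; simpa using h1
    rw [this] at hdeg
    simp at hdeg
  have hP : ∀ g ∈ Ideal.span S, ∀ h : MvPolynomial (Matchings G) K, coeff u (h * g) = 0 := by
    intro g hg
    induction hg using Submodule.span_induction with
    | mem f hf =>
      intro h
      have hfI : f ∈ toricIdeal G K := by rw [← hS]; exact Ideal.subset_span hf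
      rw [coeff_mul]
      apply Finset.sum_eq_zero
      rintro ⟨c, w⟩ hcw
      rw [Finset.HasAntidiagonal.mem_antidiagonal] at hcw
      simp only at hcw ⊢
      by_cases hfw : f.coeff w = 0
      · rw [hfw, mul_zero]
      · exfalso
        apply hfw
        have hwdeg : w.sum (fun _ k => k) ≤ f.totalDegree :=
          le_totalDegree (mem_support_iff.mpr hfw)
        have hlt := hcon f hf
        have hc0 : c ≠ 0 := by
          rintro rfl
          rw [zero_add] at hcw
          rw [hcw] at hwdeg
          omega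
        apply coeff_eq_zero G K hfI
        intro w' hw'
        have h3 : phi G (c + w') = phi G u := by
          rw [← hcw, phi_add, phi_add, hw']
        rcases hfib _ h3 with h4 | h4
        · rw [← hcw] at h4
          exact add_left_cancel h4
        · exfalso
          apply hc0
          ext M
          have h5 : c M + w M = u M := by rw [← hcw]; rfl
          have h6 : c M + w' M = v M := by rw [← h4]; rfl
          rcases hdis M with h7 | h7
          · simp only [Finsupp.coe_zero, Pi.zero_apply]; omega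
          · simp only [Finsupp.coe_zero, Pi.zero_apply]; omega
    | zero => intro h; simp
    | add x y _ _ hx hy => intro h; rw [mul_add, coeff_add, hx h, hy h, add_zero]
    | smul a x _ hx =>
      intro h
      rw [smul_eq_mul, ← mul_assoc]
      exact hx (h * a)
  have hmem : monomial u (1 : K) - monomial v 1 ∈ Ideal.span S := by
    rw [hS]
    change toricMap G K _ = 0
    rw [map_sub, map_monomial, map_monomial, huv, sub_self]
  have h8 := hP _ hmem 1
  rw [one_mul, coeff_sub, coeff_monomial, coeff_monomial, if_pos rfl, if_neg (Ne.symm hne),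
    sub_zero] at h8
  exact one_ne_zero h8

end General

/-! ### The graph -/

lemma ends_inj : Function.Injective ends := by decide

lemma ends_mem (i : Fin 16) : ends i ∈ petersenPlusEdge.edgeSet := by
  unfold petersenPlusEdge
  rw [SimpleGraph.edgeSet_fromEdgeSet]
  refine ⟨⟨i, rfl⟩, ?_⟩
  revert i
  decide

/-- the edges, numbered -/
def ed (i : Fin 16) : petersenPlusEdge.edgeSet := ⟨ends i, ends_mem i⟩

lemma ed_inj : Function.Injective ed := fun i j h => ends_inj (congrArg Subtype.val h)

lemma ed_surj (e : petersenPlusEdge.edgeSet) : ∃ i, ed i = e := by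
  obtain ⟨e, he⟩ := e
  have h := he
  unfold petersenPlusEdge at h
  rw [SimpleGraph.edgeSet_fromEdgeSet] at h
  obtain ⟨⟨i, hi⟩, _⟩ := h
  exact ⟨i, Subtype.ext hi⟩

/-- the eight perfect matchings as sets of edge numbers -/
def Q : Fin 8 → Finset (Fin 16) :=
  ![{0, 5, 9, 13, 15}, {0, 5, 10, 12, 13}, {0, 6, 8, 9, 14}, {2, 3, 5, 11, 15},
    {2, 3, 7, 8, 12}, {2, 4, 5, 11, 14}, {1, 3, 6, 10, 11}, {1, 4, 7, 9, 13}]

lemma Q_match : ∀ k : Fin 8, ∀ i ∈ Q k, ∀ j ∈ Q k, i ≠ j → ∀ v : Fin 10,
    ¬ (v ∈ ends i ∧ v ∈ ends j) := by decide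

/-- the eight perfect matchings -/
def P (k : Fin 8) : Matchings petersenPlusEdge :=
  ⟨(Q k).map ⟨ed, ed_inj⟩, by
    intro e he f hf hne v
    rw [Finset.mem_map] at he hf
    obtain ⟨i, hi, rfl⟩ := he
    obtain ⟨j, hj, rfl⟩ := hf
    exact Q_match k i hi j hj (fun h => hne (by rw [h])) v⟩

lemma mem_P (k : Fin 8) (i : Fin 16) : ed i ∈ (P k).1 ↔ i ∈ Q k := by
  unfold P
  simp only [Finset.mem_map, Function.Embedding.coeFn_mk]
  constructor
  · rintro ⟨j, hj, h⟩
    rwa [← ed_inj h]
  · intro h
    exact ⟨i, h, rfl⟩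

lemma matching_ext {M M' : Matchings petersenPlusEdge}
    (h : ∀ i, ed i ∈ M.1 ↔ ed i ∈ M'.1) : M = M' := by
  apply Subtype.ext
  ext e
  obtain ⟨i, rfl⟩ := ed_surj e
  exact h i

lemma Q_inj : Function.Injective Q := by decide

lemma P_inj : Function.Injective P := by
  intro k l h
  apply Q_inj
  ext i
  rw [← mem_P, ← mem_P, h]

/-! ### Perfect matchings -/

set_option synthInstance.maxSize 4096 in
lemma enum : ∀ b0 b1 b2 : Bool, b0.toNat + b1.toNat + b2.toNat = 1 →
    ∀ b3 b4 : Bool, b0.toNat + b3.toNat + b4.toNat = 1 →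
    ∀ b5 b8 : Bool, b1.toNat + b5.toNat + b8.toNat = 1 →
    ∀ b9 b10 : Bool, b2.toNat + b9.toNat + b10.toNat = 1 →
    ∀ b13 b14 : Bool, b3.toNat + b13.toNat + b14.toNat = 1 →
    ∀ b11 : Bool, b8.toNat + b11.toNat + b13.toNat = 1 →
    ∀ b12 : Bool, b9.toNat + b11.toNat + b12.toNat = 1 →
    ∀ b6 b7 : Bool, b5.toNat + b6.toNat + b7.toNat = 1 →
    ∀ b15 : Bool, b4.toNat + b6.toNat + b12.toNat + b15.toNat = 1 →
    b7.toNat + b10.toNat + b14.toNat + b15.toNat = 1 →
    ∃ k : Fin 8, ∀ i : Fin 16, (![b0, b1, b2, b3, b4, b5, b6, b7, b8, b9, b10, b11, b12, b13, b14,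
      b15] i = true ↔ i ∈ Q k) := by
  decide

open Classical in
/-- indicator of the edge number `i` -/
noncomputable def x (i : Fin 16) (M : Matchings petersenPlusEdge) : ℕ :=
  if ed i ∈ M.1 then 1 else 0

lemma x_le (v : Fin 10) (M : Matchings petersenPlusEdge) :
    ∑ i ∈ univ.filter (fun i => v ∈ ends i), x i M ≤ 1 := by
  classical
  unfold x
  rw [Finset.sum_boole]
  simp only [Nat.cast_id]
  rw [Finset.card_le_one]
  intro i hi j hj
  rw [Finset.mem_filter, Finset.mem_filter] at hi hj
  by_contra hne
  exact M.2 (ed i) hi.2 (ed j) hj.2 (fun h => hne (ed_inj h)) v ⟨hi.1.2, hj.1.2⟩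

lemma expo_none (M : Matchings petersenPlusEdge) : expo petersenPlusEdge M none = 1 := by
  unfold expo
  rw [Finsupp.add_apply, Finsupp.finsetSum_apply]
  simp

lemma expo_some (M : Matchings petersenPlusEdge) (i : Fin 16) :
    expo petersenPlusEdge M (some (ed i)) = x i M := by
  classical
  unfold expo x
  rw [Finsupp.add_apply, Finsupp.finsetSum_apply]
  simp only [Finsupp.single_apply, reduceCtorEq, if_false, zero_add, Option.some.injEq]
  rw [Finset.sum_ite_eq']

lemma phi_none (w : Matchings petersenPlusEdge →₀ ℕ) :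
    phi petersenPlusEdge w none = ∑ M ∈ w.support, w M := by
  unfold phi
  rw [Finsupp.sum, Finsupp.finsetSum_apply]
  refine Finset.sum_congr rfl fun M _ => ?_
  rw [Finsupp.smul_apply, expo_none, smul_eq_mul, mul_one]

lemma phi_some (w : Matchings petersenPlusEdge →₀ ℕ) (i : Fin 16) :
    phi petersenPlusEdge w (some (ed i)) = ∑ M ∈ w.support, w M * x i M := by
  unfold phi
  rw [Finsupp.sum, Finsupp.finsetSum_apply]
  refine Finset.sum_congr rfl fun M _ => ?_
  rw [Finsupp.smul_apply, expo_some, smul_eq_mul]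

/-- the multiset containing `P k` with multiplicity `c k` -/
noncomputable def W (c : Fin 8 → ℕ) : Matchings petersenPlusEdge →₀ ℕ :=
  ∑ k, Finsupp.single (P k) (c k)

lemma W_P (c : Fin 8 → ℕ) (k : Fin 8) : W c (P k) = c k := by
  unfold W
  rw [Finsupp.finsetSum_apply, Finset.sum_eq_single k]
  · simp
  · intro l _ hl
    rw [Finsupp.single_apply, if_neg]
    intro h
    exact hl (P_inj h)
  · intro h; exact absurd (Finset.mem_univ k) h

lemma W_other (c : Fin 8 → ℕ) (M : Matchings petersenPlusEdge) (h : ∀ k, P k ≠ M) :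
    W c M = 0 := by
  unfold W
  rw [Finsupp.finsetSum_apply]
  refine Finset.sum_eq_zero fun k _ => ?_
  rw [Finsupp.single_apply, if_neg (h k)]

lemma sum_range (w : Matchings petersenPlusEdge →₀ ℕ) (h : ∀ M, (∀ k, P k ≠ M) → w M = 0)
    (f : Matchings petersenPlusEdge → ℕ) :
    ∑ M ∈ w.support, w M * f M = ∑ k, w (P k) * f (P k) := by
  classical
  have e := Finset.sum_map univ ⟨P, P_inj⟩ (fun M => w M * f M)
  simp only [Function.Embedding.coeFn_mk] at e
  rw [← e]
  apply Finset.sum_subset
  · intro M hM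
    rw [Finset.mem_map]
    by_contra hcon
    push Not at hcon
    rw [Finsupp.mem_support_iff] at hM
    exact hM (h M fun k => by simpa using hcon k (Finset.mem_univ k))
  · intro M _ hM
    rw [Finsupp.notMem_support_iff] at hM
    rw [hM, zero_mul]

lemma x_P (i : Fin 16) (k : Fin 8) : x i (P k) = if i ∈ Q k then 1 else 0 := by
  unfold x
  by_cases h : i ∈ Q k
  · rw [if_pos h, if_pos ((mem_P k i).mpr h)]
  · rw [if_neg h, if_neg (fun h' => h ((mem_P k i).mp h'))]

lemma phi_some' (w : Matchings petersenPlusEdge →₀ ℕ) (h : ∀ M, (∀ k, P k ≠ M) → w M = 0)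
    (i : Fin 16) : phi petersenPlusEdge w (some (ed i)) =
      ∑ k, w (P k) * (if i ∈ Q k then 1 else 0) := by
  rw [phi_some, sum_range w h]
  refine Finset.sum_congr rfl fun k _ => ?_
  rw [x_P]

/-- first decomposition -/
def cu : Fin 8 → ℕ := ![2, 0, 0, 0, 1, 1, 1, 0]

/-- second decomposition -/
def cv : Fin 8 → ℕ := ![0, 1, 1, 2, 0, 0, 0, 1]

/-- the multiplicities of the edges -/
def a : Fin 16 → ℕ := ![2, 1, 2, 2, 1, 3, 1, 1, 1, 2, 1, 2, 1, 2, 1, 2]

lemma phi_W_some (c : Fin 8 → ℕ) (i : Fin 16) : phi petersenPlusEdge (W c) (some (ed i)) =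
    ∑ k, c k * (if i ∈ Q k then 1 else 0) := by
  rw [phi_some' (W c) (fun M hM => W_other c M hM)]
  simp only [W_P]

lemma phi_W_none (c : Fin 8 → ℕ) : phi petersenPlusEdge (W c) none = ∑ k, c k := by
  rw [phi_none]
  have h := sum_range (W c) (fun M hM => W_other c M hM) (fun _ => 1)
  simp only [mul_one] at h
  rw [h]
  simp only [W_P]

lemma cu_a : ∀ i, (∑ k, cu k * (if i ∈ Q k then 1 else 0)) = a i := by decide

lemma cv_a : ∀ i, (∑ k, cv k * (if i ∈ Q k then 1 else 0)) = a i := by decide

lemma perfect_of_mem (w : Matchings petersenPlusEdge →₀ ℕ)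
    (h0 : phi petersenPlusEdge w none = 5)
    (h1 : ∀ i, phi petersenPlusEdge w (some (ed i)) = a i) (M : Matchings petersenPlusEdge)
    (hM : w M ≠ 0) (v : Fin 10) : ∑ i ∈ univ.filter (fun i => v ∈ ends i), x i M = 1 := by
  classical
  have ha : ∀ v : Fin 10, ∑ i ∈ univ.filter (fun i => v ∈ ends i), a i = 5 := by decide
  have e1 : ∑ M ∈ w.support, w M * ∑ i ∈ univ.filter (fun i => v ∈ ends i), x i M =
      ∑ M ∈ w.support, w M := by
    simp only [Finset.mul_sum]
    rw [Finset.sum_comm, ← phi_none, h0, ← ha v]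
    refine Finset.sum_congr rfl fun i _ => ?_
    rw [← phi_some, h1]
  have e2 : ∀ M ∈ w.support, w M * ∑ i ∈ univ.filter (fun i => v ∈ ends i), x i M ≤ w M := by
    intro M _
    calc _ ≤ w M * 1 := Nat.mul_le_mul_left _ (x_le v M)
      _ = w M := mul_one _
  have e3 := (Finset.sum_eq_sum_iff_of_le e2).mp e1 M (Finsupp.mem_support_iff.mpr hM)
  have hpos : 0 < w M := Nat.pos_of_ne_zero hM
  have h5 : w M * (∑ i ∈ univ.filter (fun i => v ∈ ends i), x i M) = w M * 1 := by
    rw [e3, mul_one]
  exact Nat.eq_of_mul_eq_mul_left hpos h5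

lemma mem_range (M : Matchings petersenPlusEdge)
    (h : ∀ v : Fin 10, ∑ i ∈ univ.filter (fun i => v ∈ ends i), x i M = 1) : ∃ k, P k = M := by
  classical
  let b : Fin 16 → Bool := fun i => decide (ed i ∈ M.1)
  have hx : ∀ i, x i M = (b i).toNat := by
    intro i
    unfold x
    by_cases hi : ed i ∈ M.1
    · rw [if_pos hi]; simp [b, hi]
    · rw [if_neg hi]; simp [b, hi]
  simp only [hx] at h
  have f0 : univ.filter (fun i => (0 : Fin 10) ∈ ends i) = {0, 1, 2} := by decide
  have f1 : univ.filter (fun i => (1 : Fin 10) ∈ ends i) = {0, 3, 4} := by decide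
  have f2 : univ.filter (fun i => (2 : Fin 10) ∈ ends i) = {5, 6, 7} := by decide
  have f3 : univ.filter (fun i => (3 : Fin 10) ∈ ends i) = {1, 5, 8} := by decide
  have f4 : univ.filter (fun i => (4 : Fin 10) ∈ ends i) = {2, 9, 10} := by decide
  have f5 : univ.filter (fun i => (5 : Fin 10) ∈ ends i) = {9, 11, 12} := by decide
  have f6 : univ.filter (fun i => (6 : Fin 10) ∈ ends i) = {3, 13, 14} := by decide
  have f7 : univ.filter (fun i => (7 : Fin 10) ∈ ends i) = {8, 11, 13} := by decide
  have f8 : univ.filter (fun i => (8 : Fin 10) ∈ ends i) = {4, 6, 12, 15} := by decide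
  have f9 : univ.filter (fun i => (9 : Fin 10) ∈ ends i) = {7, 10, 14, 15} := by decide
  have s3 : ∀ i j k : Fin 16, i ≠ j → i ≠ k → j ≠ k →
      ∑ l ∈ ({i, j, k} : Finset (Fin 16)), (b l).toNat = (b i).toNat + (b j).toNat + (b k).toNat := by
    intro i j k hij hik hjk
    rw [Finset.sum_insert (by simp [hij, hik]), Finset.sum_insert (by simp [hjk]),
      Finset.sum_singleton, add_assoc]
  have s4 : ∀ i j k m : Fin 16, i ≠ j → i ≠ k → i ≠ m → j ≠ k → j ≠ m → k ≠ m →
      ∑ l ∈ ({i, j, k, m} : Finset (Fin 16)), (b l).toNat =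
        (b i).toNat + (b j).toNat + (b k).toNat + (b m).toNat := by
    intro i j k m hij hik him hjk hjm hkm
    rw [Finset.sum_insert (by simp [hij, hik, him]), Finset.sum_insert (by simp [hjk, hjm]),
      Finset.sum_insert (by simp [hkm]), Finset.sum_singleton]
    ring
  have g0 := h 0
  have g1 := h 1
  have g2 := h 2
  have g3 := h 3
  have g4 := h 4
  have g5 := h 5
  have g6 := h 6
  have g7 := h 7
  have g8 := h 8
  have g9 := h 9
  rw [f0, s3 _ _ _ (by decide) (by decide) (by decide)] at g0
  rw [f1, s3 _ _ _ (by decide) (by decide) (by decide)] at g1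
  rw [f2, s3 _ _ _ (by decide) (by decide) (by decide)] at g2
  rw [f3, s3 _ _ _ (by decide) (by decide) (by decide)] at g3
  rw [f4, s3 _ _ _ (by decide) (by decide) (by decide)] at g4
  rw [f5, s3 _ _ _ (by decide) (by decide) (by decide)] at g5
  rw [f6, s3 _ _ _ (by decide) (by decide) (by decide)] at g6
  rw [f7, s3 _ _ _ (by decide) (by decide) (by decide)] at g7
  rw [f8, s4 _ _ _ _ (by decide) (by decide) (by decide) (by decide) (by decide) (by decide)] at g8
  rw [f9, s4 _ _ _ _ (by decide) (by decide) (by decide) (by decide) (by decide) (by decide)] at g9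
  obtain ⟨k, hk⟩ := enum (b 0) (b 1) (b 2) g0 (b 3) (b 4) g1 (b 5) (b 8) g3 (b 9) (b 10) g4
    (b 13) (b 14) g6 (b 11) g7 (b 12) g5 (b 6) (b 7) g2 (b 15) g8 g9
  refine ⟨k, matching_ext fun i => ?_⟩
  rw [mem_P, ← hk i]
  have hb : ![b 0, b 1, b 2, b 3, b 4, b 5, b 6, b 7, b 8, b 9, b 10, b 11, b 12, b 13, b 14,
      b 15] i = b i := by
    fin_cases i <;> rfl
  rw [hb]
  simp [b]

lemma fibre (w : Matchings petersenPlusEdge →₀ ℕ)
    (hw : phi petersenPlusEdge w = phi petersenPlusEdge (W cu)) : w = W cu ∨ w = W cv := by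
  have h0 : phi petersenPlusEdge w none = 5 := by
    rw [hw, phi_W_none]
    decide
  have h1 : ∀ i, phi petersenPlusEdge w (some (ed i)) = a i := by
    intro i
    rw [hw, phi_W_some, cu_a]
  have h2 : ∀ M, (∀ k, P k ≠ M) → w M = 0 := by
    intro M hM
    by_contra hne
    obtain ⟨k, hk⟩ := mem_range M (perfect_of_mem w h0 h1 M hne)
    exact hM k hk
  have h3 : ∀ i, (∑ k, w (P k) * (if i ∈ Q k then 1 else 0)) = a i := by
    intro i
    rw [← phi_some' w h2, h1]
  have hwW : w = W (fun k => w (P k)) := by
    ext M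
    by_cases hM : ∀ k, P k ≠ M
    · rw [h2 M hM, W_other _ _ hM]
    · push Not at hM
      obtain ⟨k, rfl⟩ := hM
      rw [W_P]
  have key2 : (fun k => w (P k)) = cu ∨ (fun k => w (P k)) = cv := by
    have e0 := h3 0
    have e1 := h3 1
    have e2 := h3 2
    have e3 := h3 3
    have e4 := h3 4
    have e5 := h3 5
    have e6 := h3 6
    have e7 := h3 7
    have e8 := h3 8
    have e9 := h3 9
    have e10 := h3 10
    have e11 := h3 11
    have e12 := h3 12
    have e13 := h3 13
    have e14 := h3 14
    have e15 := h3 15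
    simp [Fin.sum_univ_eight, Q, a] at e0 e1 e2 e3 e4 e5 e6 e7 e8 e9 e10 e11 e12 e13 e14 e15
    have h4 : w (P 0) = 2 ∨ w (P 0) = 0 := by omega
    rcases h4 with h4 | h4
    · left
      funext k
      fin_cases k <;> simp [cu] <;> omega
    · right
      funext k
      fin_cases k <;> simp [cv] <;> omega
  rcases key2 with h | h
  · left; rw [hwW, h]
  · right; rw [hwW, h]

/-- For every field `K`, every set of generators of the toric ideal of the matching polytope of the
Petersen graph with one further edge contains an element of degree at least five. -/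
theorem result (K : Type u) [Field K] (S : Set (MvPolynomial (Matchings petersenPlusEdge) K))
    (hS : Ideal.span S = toricIdeal petersenPlusEdge K) : ∃ f ∈ S, 5 ≤ f.totalDegree := by
  refine key petersenPlusEdge K (W cu) (W cv) ?_ ?_ fibre ?_ S hS
  · have h := phi_W_none cu
    rw [phi_none] at h
    rw [Finsupp.sum, h]
    decide
  · ext z
    rcases z with _ | e
    · rw [phi_W_none, phi_W_none]; decide
    · obtain ⟨i, rfl⟩ := ed_surj e
      rw [phi_W_some, phi_W_some, cu_a, cv_a]
  · intro M
    by_cases hM : ∀ k, P k ≠ M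
    · left; exact W_other _ _ hM
    · push Not at hM
      obtain ⟨k, rfl⟩ := hM
      rw [W_P, W_P]
      revert k
      decide

end Pool.Agent.Results.MP_2a9801_co.DegreeFive
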